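import Pool.Agent.MP_4baaa2_an.Defs

/-!
Definitions used in the statement on inner approximation.
-/

namespace Pool.Agent.MP_4baaa2_an.H94

/-- `ℂ^n` with the Euclidean norm -/
abbrev E (n : ℕ) : Type := EuclideanSpace ℂ (Fin n)

variable {n : ℕ}

/-- the bilinear pairing `⟨x, y⟩ = ∑ x_i y_i` -/
@[irreducible] noncomputable def dot (x y : E n) : ℂ := ∑ i, x i * y i

/-- the set `Γ(z)` of all `u` whose hyperplane `⟨u, ·⟩ = 1` contains `z` and misses `D` -/
def Gam (D : Set (E n)) (z : E n) : Set (E n) :=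
  {u | dot u z = 1 ∧ ∀ ζ ∈ D, dot u ζ ≠ 1}

end Pool.Agent.MP_4baaa2_an.H94
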